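import Mathlib
import Pool.Agent.R735.SX.Core
import Pool.Agent.Results.MP_d3128a_ag.FiveArbitrary
import Pool.Agent.Results.MP_d3128a_ag.LargeThirdMultiplicity

/-!
# The sixth multiplicity controls the exceptions

General points of the complex projective plane. An exception to Q1 is a class `(d; w 0 ≥ w 1 ≥ ⋯)` with `s ≥ 4` positive
multiplicities and `d ≥ w 0 + w 1 + w 2` which is special. Let `μ ≥ 1` be an upper bound for the sixth multiplicity `w 5`
and `B = 2 ^ 17 (4 μ ^ 2 + 8 μ + 5) ^ 4`. For every exception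

* `w 2 < 4 μ ^ 2 + 8 μ + 5`,
* `2 (w 0 w 1 + w 0 w 2 + w 1 w 2) + 2 (w 0 + w 1 + w 2) + 2 < B` and the conditions at all points but the first three
  are fewer than `B`,
* `d < B` and `s < B + 3`; in particular `d < 1.1 * 10 ^ 10 * (max (w 5) 1) ^ 8`.

Hence for every `μ` only finitely many exceptions have `w 5 ≤ μ`: with arbitrary numbers of points, arbitrary degrees and
five arbitrary multiplicities Q1 is a finite problem for every bound on the sixth one, and a family of infinitely many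
exceptions has `w 5 → ∞`.
-/

set_option autoImplicit false

namespace Pool.Agent.Results.MP_d3128a_ag.SixthMultiplicity

open Pool.Agent.R735.SX

theorem five : FiveStm := by
  intro r m hm v hv h5 d hd h
  obtain ⟨F, hF, hF'⟩ := FiveArbitrary.result r m hm v hv h5
  exact ⟨F, hF, fun P hP => hF' P hP d hd h⟩

theorem third : ThirdStm := by
  intro s m w hm hw hs h d hd
  obtain ⟨F, hF, hF'⟩ := LargeThirdMultiplicity.result.2 s m w hm hw hs (Or.inr h)
  exact ⟨F, hF, fun P hP => hF' P hP d hd⟩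

theorem result :
    (∀ (s d : ℕ) (w : ℕ → ℕ), Exception s d w → ∀ μ : ℕ, 1 ≤ μ → w 5 ≤ μ →
      w 2 < 4 * μ ^ 2 + 8 * μ + 5 ∧
      2 * (w 0 * w 1 + w 0 * w 2 + w 1 * w 2) + 2 * (w 0 + w 1 + w 2) + 2 < B μ ∧
      ∑ i ∈ Finset.Ico 3 s, (w i + 1).choose 2 < B μ ∧
      d < B μ ∧ s < B μ + 3) ∧
    (∀ (s d : ℕ) (w : ℕ → ℕ), Exception s d w → d < 11000000000 * (max (w 5) 1) ^ 8) ∧
    (∀ μ : ℕ, {x : ℕ × ℕ × (ℕ → ℕ) | x.2.2 5 ≤ μ ∧ Exception x.1 x.2.1 x.2.2}.Finite) := by
  refine ⟨fun s d w h μ hμ hw => ?_, fun s d w h => six five third h, finite five third⟩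
  obtain ⟨b1, b2, b3⟩ := bounds five third h hμ hw
  obtain ⟨c1, c2, c3⟩ := bounds2 five third h hμ hw
  exact ⟨b1, c1, b3, c2, c3⟩

end Pool.Agent.Results.MP_d3128a_ag.SixthMultiplicity
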