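import Pool.Agent.Y205.AV.Three
import Pool.Agent.R66.BX.Box
import Pool.Agent.R66.BX.Points

set_option autoImplicit false

/-!
# The proportion of the special classes in boxes and products of arbitrary sets

Let `A 1, …, A n` be arbitrary nonempty finite sets of multiplicities, all at most `μ`, and `D ≥ 1`.
We consider the classes `(d; m)` with `1 ≤ d ≤ D` and `m i ∈ A i`. Let `N` be the effective number of
the points, the sum over `i` of the mean value of `(a / μ) ^ 2`, `a ∈ A i`. At general points, and for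
all `A`, `μ`, `D` at once at points with algebraically independent coordinates and at the explicit
points with the coordinates `exp (2 ^ (k / (2 n)))`, at most the proportion `10 ^ 6 / N` of these
classes is special; if `D ≥ 4 μ`, at most the proportion `4 * 10 ^ 6 / N` of those with
`d ≥ m i + m j + m k` for all `i < j < k` is special. For instance, for `A i = {0, …, M}` and
`D ≥ 4 M` at most the proportion `1.2 * 10 ^ 7 / n` of the classes of Q1 in the box
`1 ≤ d ≤ D`, `0 ≤ m i ≤ M` are counterexamples, whatever `M` and `D` are.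
-/

namespace Pool.Agent.Results.MP_d3128a_ag.SpecialClassesInBoxes

open MvPolynomial

/-- The `n` points with the affine coordinates `exp (2 ^ (k / (2 n)))`, `k = 0, 1, …, 2 n - 1`. -/
noncomputable def explicitPoints (n : ℕ) : Fin n → Fin 2 → ℂ := fun i j =>
  Complex.exp (((2 : ℝ) ^ (((2 * (i : ℕ) + (j : ℕ) : ℕ) : ℝ) / (2 * n)) : ℝ) : ℂ)

/-- Forms of degree `d` vanishing to order at least `w i` at the points `(P i 0 : P i 1 : 1)`. -/
noncomputable def forms {n : ℕ} (P : Fin n → Fin 2 → ℂ) (d : ℕ) (w : Fin n → ℕ) :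
    Submodule ℂ (MvPolynomial (Fin 3) ℂ) :=
  homogeneousSubmodule (Fin 3) ℂ d ⊓
    Submodule.restrictScalars ℂ
      (⨅ i : Fin n, (Ideal.span {X 0 - C (P i 0) * X 2, X 1 - C (P i 1) * X 2} :
        Ideal (MvPolynomial (Fin 3) ℂ)) ^ (w i))

/-- The virtual dimension of the class `(d; w)`. -/
def vdim {n : ℕ} (d : ℕ) (w : Fin n → ℕ) : ℤ :=
  ((d + 2).choose 2 : ℤ) - 1 - ∑ i, ((w i + 1).choose 2 : ℤ)

/-- The class `x = (d; w)` is special at the points `P`: the dimension of the linear system is not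
the expected one. -/
def Special {n : ℕ} (P : Fin n → Fin 2 → ℂ) (x : ℕ × (Fin n → ℕ)) : Prop :=
  (Module.finrank ℂ ↥(forms P x.1 x.2) : ℤ) - 1 ≠ max (vdim x.1 x.2) (-1)

/-- The classes `(d; w)` with `1 ≤ d ≤ D` and `w i ∈ A i`. -/
def box {n : ℕ} (D : ℕ) (A : Fin n → Finset ℕ) : Set (ℕ × (Fin n → ℕ)) :=
  {x | 1 ≤ x.1 ∧ x.1 ≤ D ∧ ∀ i, x.2 i ∈ A i}

/-- The classes of Q1 in the box: the sum of the (at most) three largest multiplicities is at most
`d`. -/
def standardBox {n : ℕ} (D : ℕ) (A : Fin n → Finset ℕ) : Set (ℕ × (Fin n → ℕ)) :=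
  {x ∈ box D A | ∀ T : Finset (Fin n), T.card ≤ 3 → ∑ i ∈ T, x.2 i ≤ x.1}

/-- The effective number of points: the sum over `i` of the mean value of `(a / μ) ^ 2`, `a ∈ A i`. -/
noncomputable def effective {n : ℕ} (μ : ℕ) (A : Fin n → Finset ℕ) : ℝ :=
  (∑ i, (∑ a ∈ A i, (a : ℝ) ^ 2) / ((A i).card : ℝ)) / (μ : ℝ) ^ 2

/-- At most the proportion `10 ^ 6 / effective μ A` of the classes in the box are special, and at most
the proportion `4 * 10 ^ 6 / effective μ A` of the classes of Q1 in the box. -/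
def FewSpecial {n : ℕ} (P : Fin n → Fin 2 → ℂ) (μ D : ℕ) (A : Fin n → Finset ℕ) : Prop :=
  effective μ A * (Set.ncard {x ∈ box D A | Special P x} : ℝ) ≤
      10 ^ 6 * (Set.ncard (box D A) : ℝ) ∧
    (4 * μ ≤ D → effective μ A * (Set.ncard {x ∈ standardBox D A | Special P x} : ℝ) ≤
      4 * 10 ^ 6 * (Set.ncard (standardBox D A) : ℝ))

theorem box_eq {n : ℕ} (D : ℕ) (A : Fin n → Finset ℕ) : box D A = Pool.Agent.R66.BX.box D A := rfl

theorem box_card {n : ℕ} (D : ℕ) (A : Fin n → Finset ℕ) :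
    (Set.ncard (box D A) : ℝ) = D * ∏ i, ((A i).card : ℝ) := by
  rw [box_eq, Pool.Agent.R66.BX.box_finset, Set.ncard_coe_finset, Finset.card_product,
    Nat.card_Icc, Fintype.card_piFinset]
  push_cast
  simp

theorem box_finite {n : ℕ} (D : ℕ) (A : Fin n → Finset ℕ) : (box D A).Finite := by
  rw [box_eq, Pool.Agent.R66.BX.box_finset]
  exact Finset.finite_toSet _

/-- The main step: it suffices that the classes outside of the window are not special. -/
theorem few {n : ℕ} {P : Fin n → Fin 2 → ℂ} {μ D : ℕ} {A : Fin n → Finset ℕ} (hμ : 1 ≤ μ)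
    (hA : ∀ i, (A i).Nonempty ∧ ∀ a ∈ A i, a ≤ μ)
    (h : ∀ m : Fin n → ℕ, (∀ i, m i ∈ A i) → ∀ d : ℕ, Pool.Agent.Y205.AV.Big m μ d →
      Pool.Agent.H932R3.ExpDim ℂ m P d) : FewSpecial P μ D A := by
  have hns : ∀ m : Fin n → ℕ, (∀ i, m i ∈ A i) → ∀ d : ℕ, Special P (d, m) →
      ∑ i, (m i : ℤ) + 4 * |((d + 2).choose 2 : ℤ) - ∑ i, ((m i + 1).choose 2 : ℤ)| <
        25000 * ((μ : ℤ) + 1) ^ 2 := by
    intro m hm d hs
    by_contra hcon
    push Not at hcon
    apply hs
    have h1 := h m hm d (by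
      left
      have h2 := Pool.Agent.Y205.AV.gap_eq m d
      have h3 : ((25000 * (μ + 1) ^ 2 : ℕ) : ℤ) ≤
          ((∑ i, m i + 2 * Pool.Agent.Y205.AV.gap m d : ℕ) : ℤ) := by
        push_cast
        rw [h2]
        linarith
      exact_mod_cast h3)
    unfold Pool.Agent.H932R3.ExpDim at h1
    unfold forms vdim
    simp only
    rw [h1]
    have e : ∑ i, ((m i + 1).choose 2 : ℤ) = ((∑ i, (m i + 1).choose 2 : ℕ) : ℤ) := by
      push_cast
      rfl
    rw [e]
    omega
  have hμ2 : (0 : ℝ) < (μ : ℝ) ^ 2 := by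
    have : (1 : ℝ) ≤ μ := by exact_mod_cast hμ
    positivity
  have hc := Pool.Agent.R66.BX.box_count A (fun i => (hA i).1) (D := D) hμ (fun i => (hA i).2)
    (fun d m => Special P (d, m)) (fun m hm d _ _ hs => hns m hm d hs)
  have he : effective μ A = Pool.Agent.R66.BX.mean2 A / (μ : ℝ) ^ 2 := rfl
  have hmain : effective μ A * (Set.ncard {x ∈ box D A | Special P x} : ℝ) ≤
      10 ^ 6 * (D * ∏ i, ((A i).card : ℝ)) := by
    rw [he, div_mul_eq_mul_div, div_le_iff₀ hμ2]
    have h1 : Pool.Agent.R66.BX.mean2 A * (Set.ncard {x ∈ box D A | Special P x} : ℝ) =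
        (Set.ncard {x ∈ Pool.Agent.R66.BX.box D A | Special P (x.1, x.2)} : ℝ) *
          Pool.Agent.R66.BX.mean2 A := mul_comm _ _
    rw [h1]
    refine hc.trans (le_of_eq ?_)
    ring
  refine ⟨?_, fun hD => ?_⟩
  · rw [box_card]
    exact hmain
  · have hst := Pool.Agent.R66.BX.standard_count (n := n) A hD (fun i => (hA i).2)
    have hst' : (D : ℝ) * ∏ i, ((A i).card : ℝ) ≤ 4 * (Set.ncard (standardBox D A) : ℝ) := hst
    have hsub : (Set.ncard {x ∈ standardBox D A | Special P x} : ℝ) ≤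
        (Set.ncard {x ∈ box D A | Special P x} : ℝ) := by
      have : {x ∈ standardBox D A | Special P x} ⊆ {x ∈ box D A | Special P x} :=
        fun x hx => ⟨hx.1.1, hx.2⟩
      exact_mod_cast Set.ncard_le_ncard this ((box_finite D A).subset fun x hx => hx.1)
    have heff : 0 ≤ effective μ A := by
      rw [he]
      exact div_nonneg (Pool.Agent.R66.BX.mean2_nonneg A) hμ2.le
    calc effective μ A * (Set.ncard {x ∈ standardBox D A | Special P x} : ℝ)
        ≤ effective μ A * (Set.ncard {x ∈ box D A | Special P x} : ℝ) :=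
          mul_le_mul_of_nonneg_left hsub heff
      _ ≤ 10 ^ 6 * (D * ∏ i, ((A i).card : ℝ)) := hmain
      _ ≤ 10 ^ 6 * (4 * (Set.ncard (standardBox D A) : ℝ)) := by
          apply mul_le_mul_of_nonneg_left hst' (by norm_num)
      _ = 4 * 10 ^ 6 * (Set.ncard (standardBox D A) : ℝ) := by ring

theorem few_of_indep {n : ℕ} {P : Fin n → Fin 2 → ℂ}
    (hP : AlgebraicIndependent ℚ (fun ij : Fin n × Fin 2 => P ij.1 ij.2)) {μ D : ℕ}
    {A : Fin n → Finset ℕ} (hμ : 1 ≤ μ) (hA : ∀ i, (A i).Nonempty ∧ ∀ a ∈ A i, a ≤ μ) :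
    FewSpecial P μ D A := by
  refine few hμ hA fun m hm d hbig => ?_
  obtain ⟨F, hF, hF'⟩ := Pool.Agent.Y205.AV.big_vectors m
  refine hF' P ?_ d μ (fun i => (hA i).2 _ (hm i)) hbig
  intro h0
  exact hF ((algebraicIndependent_iff.1 hP) F h0)

/-- The squares of the numbers `0, …, M`. -/
theorem sum_sq (M : ℕ) : ∑ a ∈ Finset.range (M + 1), (a : ℝ) ^ 2 = M * (M + 1) * (2 * M + 1) / 6 := by
  induction M with
  | zero => simp
  | succ M ih =>
    rw [Finset.sum_range_succ, ih]
    push_cast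
    ring

theorem effective_box {n M : ℕ} (hM : 1 ≤ M) :
    (n : ℝ) ≤ 3 * effective M (fun _ : Fin n => Finset.range (M + 1)) := by
  have hMR : (1 : ℝ) ≤ M := by exact_mod_cast hM
  unfold effective
  simp only [sum_sq, Finset.card_range, Finset.sum_const, Finset.card_univ, Fintype.card_fin,
    nsmul_eq_mul]
  push_cast
  have h1 : (M : ℝ) * (M + 1) * (2 * M + 1) / 6 / (M + 1) = M * (2 * M + 1) / 6 := by
    field_simp
  rw [h1]
  have h2 : 3 * ((n : ℝ) * (M * (2 * M + 1) / 6) / (M : ℝ) ^ 2) =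
      n * ((2 * M + 1) / (2 * M)) := by
    field_simp
    ring
  rw [h2]
  have h3 : (1 : ℝ) ≤ (2 * M + 1) / (2 * M) := by
    rw [le_div_iff₀ (by positivity)]
    linarith
  nlinarith [Nat.cast_nonneg (α := ℝ) n]

/-- **Main result.** -/
theorem result (n : ℕ) (hn : 1 ≤ n) :
    (∀ P : Fin n → Fin 2 → ℂ, (P = explicitPoints n ∨
        AlgebraicIndependent ℚ (fun ij : Fin n × Fin 2 => P ij.1 ij.2)) →
      (∀ (μ D : ℕ) (A : Fin n → Finset ℕ), 1 ≤ μ → (∀ i, (A i).Nonempty ∧ ∀ a ∈ A i, a ≤ μ) →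
        FewSpecial P μ D A) ∧
      ∀ M D : ℕ, 1 ≤ M → 4 * M ≤ D →
        (n : ℝ) * (Set.ncard {x ∈ standardBox D (fun _ : Fin n => Finset.range (M + 1)) |
            Special P x} : ℝ) ≤
          12 * 10 ^ 6 *
            (Set.ncard (standardBox D (fun _ : Fin n => Finset.range (M + 1))) : ℝ)) ∧
    ∀ (μ D : ℕ) (A : Fin n → Finset ℕ), 1 ≤ μ → (∀ i, (A i).Nonempty ∧ ∀ a ∈ A i, a ≤ μ) →
      ∃ F : MvPolynomial (Fin n × Fin 2) ℂ, F ≠ 0 ∧ ∀ P : Fin n → Fin 2 → ℂ,
        eval (fun ij : Fin n × Fin 2 => P ij.1 ij.2) F ≠ 0 → FewSpecial P μ D A := by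
  classical
  refine ⟨fun P hP => ?_, fun μ D A hμ hA => ?_⟩
  · have hP0 : AlgebraicIndependent ℚ (fun ij : Fin n × Fin 2 => P ij.1 ij.2) := by
      rcases hP with rfl | hP
      · exact Pool.Agent.R66.BX.explicit_indep hn
      · exact hP
    refine ⟨fun μ D A hμ hA => few_of_indep hP0 hμ hA, fun M D hM hD => ?_⟩
    have h1 := (few_of_indep (D := D) hP0 hM (A := fun _ : Fin n => Finset.range (M + 1))
      (fun i => ⟨⟨0, by simp⟩, fun a ha => by
        have := Finset.mem_range.1 ha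
        omega⟩)).2 hD
    have h2 := effective_box (n := n) hM
    have h3 : (n : ℝ) * (Set.ncard {x ∈ standardBox D (fun _ : Fin n => Finset.range (M + 1)) |
        Special P x} : ℝ) ≤ (3 * effective M (fun _ : Fin n => Finset.range (M + 1))) *
          (Set.ncard {x ∈ standardBox D (fun _ : Fin n => Finset.range (M + 1)) |
            Special P x} : ℝ) := mul_le_mul_of_nonneg_right h2 (by positivity)
    linarith
  · choose F hF hF' using fun m : Fin n → ℕ => Pool.Agent.Y205.AV.big_vectors m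
    refine ⟨(∏ m ∈ Fintype.piFinset A, F m).map (algebraMap ℚ ℂ),
      Pool.Agent.H932R3.map_ne_zero_of (Finset.prod_ne_zero_iff.2 fun m _ => hF m), fun P hP => ?_⟩
    refine few hμ hA fun m hm d hbig => hF' m P ?_ d μ (fun i => (hA i).2 _ (hm i)) hbig
    intro h0
    apply hP
    rw [MvPolynomial.eval_map]
    have h1 : MvPolynomial.aeval (fun ij : Fin n × Fin 2 => P ij.1 ij.2)
        (∏ m ∈ Fintype.piFinset A, F m) = 0 := by
      rw [map_prod]
      exact Finset.prod_eq_zero (Fintype.mem_piFinset.2 hm) h0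
    exact h1

end Pool.Agent.Results.MP_d3128a_ag.SpecialClassesInBoxes
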